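import Pool.Agent.Y461.KM.Stm

/-!
# Project KM, job PW: generators of the invariant ring of an indefinite matrix
-/

set_option autoImplicit false

namespace Pool.Agent.Y455.KM

open MvPolynomial Pool.Agent.Y461.KM

/-! ### derivatives -/

theorem degree_pderiv {σ : Type} (i : σ) (f : MvPolynomial σ ℚ) :
    (pderiv i f).totalDegree ≤ f.totalDegree := by
  classical
  refine Finset.sup_le fun d hd => ?_
  rw [mem_support_iff, coeff_pderiv] at hd
  have h1 : d + Finsupp.single i 1 ∈ f.support := by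
    rw [mem_support_iff]
    intro h0
    rw [h0, zero_mul] at hd
    exact hd rfl
  have h2 := le_totalDegree h1
  rw [Finsupp.sum_add_index' (fun _ => rfl) (fun _ _ _ => rfl)] at h2
  omega

theorem c2 {n m : ℕ} : (C (2 : ℚ) : Pl n m) = 2 := map_ofNat C 2

/-- a polynomial whose derivatives in the variables `inl i` vanish -/
theorem mem_supp {n m : ℕ} (f : Pl n m) (h : ∀ i, pderiv (Sum.inl i) f = 0) :
    f ∈ supported ℚ (Set.range (Sum.inr : Fin m → Fin n ⊕ Fin m)) := by
  classical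
  rw [mem_supported]
  intro x hx
  rcases x with i | s
  · exfalso
    rw [Finset.mem_coe, mem_vars_iff_mem_support] at hx
    obtain ⟨d, hd, hi⟩ := hx
    have h1 := coeff_pderiv (i := Sum.inl i) f (d - Finsupp.single (Sum.inl i) 1)
    rw [h i, coeff_zero] at h1
    have h2 : d (Sum.inl i) ≠ 0 := Finsupp.mem_support_iff.1 hi
    have h3 : d - Finsupp.single (Sum.inl i) 1 + Finsupp.single (Sum.inl i) 1 = d := by
      ext y
      simp only [Finsupp.add_apply, Finsupp.tsub_apply, Finsupp.single_apply]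
      split_ifs with hy
      · subst hy
        omega
      · omega
    rw [h3] at h1
    have h4 : coeff d f ≠ 0 := mem_support_iff.1 hd
    have h5 : (((d - Finsupp.single (Sum.inl i) 1 : Fin n ⊕ Fin m →₀ ℕ) (Sum.inl i) : ℕ) : ℚ) + 1
        ≠ 0 := by positivity
    exact mul_ne_zero h4 h5 h1.symm
  · exact ⟨s, rfl⟩

theorem pderiv_supp {n m : ℕ} (f : Pl n m)
    (hf : f ∈ supported ℚ (Set.range (Sum.inr : Fin m → Fin n ⊕ Fin m))) (i : Fin n) :
    pderiv (Sum.inl i) f = 0 := by
  apply pderiv_eq_zero_of_notMem_vars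
  intro hi
  rw [mem_supported] at hf
  obtain ⟨s, hs⟩ := hf (Finset.mem_coe.2 hi)
  cases hs

/-! ### the reflections -/

theorem rf_inr {n m : ℕ} (A : Matrix (Fin n) (Fin n) ℤ) (b : Fin n → Fin m → ℚ) (i : Fin n)
    (s : Fin m) : rf A b i (X (Sum.inr s)) = X (Sum.inr s) := by
  simp [rf]

theorem rf_inl {n m : ℕ} (A : Matrix (Fin n) (Fin n) ℤ) (b : Fin n → Fin m → ℚ) (i k : Fin n) :
    rf A b i (X (Sum.inl k)) = X (Sum.inl k) - if k = i then al A b i else 0 := by
  simp [rf]

/-- the part of the root in the coroot variables -/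
noncomputable def tA {n m : ℕ} (A : Matrix (Fin n) (Fin n) ℤ) (k : Fin n) : Pl n m :=
  ∑ j, C ((A j k : ℤ) : ℚ) * X (Sum.inl j)

/-- the part of the root in the other variables -/
noncomputable def tB {n m : ℕ} (b : Fin n → Fin m → ℚ) (k : Fin n) : Pl n m :=
  ∑ s, C (b k s) * X (Sum.inr s)

theorem al_eq {n m : ℕ} (A : Matrix (Fin n) (Fin n) ℤ) (b : Fin n → Fin m → ℚ) (k : Fin n) :
    al A b k = tA A k + tB b k := rfl

/-- the quadratic form -/
noncomputable def qf {n m : ℕ} (A : Matrix (Fin n) (Fin n) ℤ) (b : Fin n → Fin m → ℚ)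
    (c : Fin n → ℚ) : Pl n m :=
  ∑ k, C (c k / 2) * (X (Sum.inl k) * (tA A k + 2 * tB b k))

theorem tA_hom {n m : ℕ} (A : Matrix (Fin n) (Fin n) ℤ) (k : Fin n) :
    (tA A k : Pl n m).IsHomogeneous 1 := by
  refine IsHomogeneous.sum _ _ _ fun j _ => ?_
  simpa using (isHomogeneous_C (Fin n ⊕ Fin m) ((A j k : ℤ) : ℚ)).mul (isHomogeneous_X ℚ (Sum.inl j))

theorem tB_hom {n m : ℕ} (b : Fin n → Fin m → ℚ) (k : Fin n) :
    (tB b k : Pl n m).IsHomogeneous 1 := by
  refine IsHomogeneous.sum _ _ _ fun s _ => ?_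
  simpa using (isHomogeneous_C (Fin n ⊕ Fin m) (b k s)).mul (isHomogeneous_X ℚ (Sum.inr s))

theorem al_hom {n m : ℕ} (A : Matrix (Fin n) (Fin n) ℤ) (b : Fin n → Fin m → ℚ) (k : Fin n) :
    (al A b k).IsHomogeneous 1 := (tA_hom A k).add (tB_hom b k)

theorem qf_hom {n m : ℕ} (A : Matrix (Fin n) (Fin n) ℤ) (b : Fin n → Fin m → ℚ)
    (c : Fin n → ℚ) : (qf A b c).IsHomogeneous 2 := by
  refine IsHomogeneous.sum _ _ _ fun k _ => ?_
  have h2 : (2 * tB b k : Pl n m).IsHomogeneous 1 := by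
    have := (isHomogeneous_C (Fin n ⊕ Fin m) (2 : ℚ)).mul (tB_hom b k)
    simpa [c2] using this
  have h1 := (isHomogeneous_X ℚ (Sum.inl k : Fin n ⊕ Fin m)).mul ((tA_hom A k).add h2)
  have h3 := (isHomogeneous_C (Fin n ⊕ Fin m) (c k / 2)).mul h1
  simpa using h3

theorem al_ne_zero {n m : ℕ} (A : Matrix (Fin n) (Fin n) ℤ) (b : Fin n → Fin m → ℚ) (k : Fin n)
    (h : A k k = 2) : al A b k ≠ 0 := by
  classical
  intro h0
  have h1 : pderiv (Sum.inl k) (al A b k) = C 2 := by
    rw [al_eq, tA, tB, map_add, map_sum, map_sum]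
    rw [Finset.sum_eq_single k, Finset.sum_eq_zero]
    · simp [pderiv_C_mul, h]
    · intro s _
      simp [pderiv_C_mul, pderiv_X]
    · intro j _ hj
      simp [pderiv_C_mul, pderiv_X, hj]
    · simp
  rw [h0, map_zero] at h1
  have h2 : (2 : ℚ) = 0 := by
    have := congrArg (coeff 0) h1
    simpa using this.symm
  norm_num at h2

theorem pderiv_tA {n m : ℕ} (A : Matrix (Fin n) (Fin n) ℤ) (i k : Fin n) :
    pderiv (Sum.inl i) (tA A k : Pl n m) = C ((A i k : ℤ) : ℚ) := by
  classical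
  rw [tA, map_sum, Finset.sum_eq_single i]
  · simp [pderiv_C_mul]
  · intro j _ hj
    simp [pderiv_C_mul, pderiv_X, hj]
  · simp

theorem pderiv_tB {n m : ℕ} (b : Fin n → Fin m → ℚ) (i k : Fin n) :
    pderiv (Sum.inl i) (tB b k : Pl n m) = 0 := by
  classical
  rw [tB, map_sum, Finset.sum_eq_zero]
  intro s _
  simp [pderiv_C_mul, pderiv_X]

theorem rf_tA {n m : ℕ} (A : Matrix (Fin n) (Fin n) ℤ) (b : Fin n → Fin m → ℚ) (i k : Fin n) :
    rf A b i (tA A k) = tA A k - C ((A i k : ℤ) : ℚ) * al A b i := by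
  classical
  rw [tA, map_sum]
  have h : ∀ j, rf A b i (C ((A j k : ℤ) : ℚ) * X (Sum.inl j)) =
      C ((A j k : ℤ) : ℚ) * X (Sum.inl j) -
        (if j = i then C ((A i k : ℤ) : ℚ) * al A b i else 0) := by
    intro j
    have hC : rf A b i (C ((A j k : ℤ) : ℚ)) = C ((A j k : ℤ) : ℚ) := AlgHom.commutes _ _
    rw [map_mul, rf_inl, hC]
    split_ifs with hj
    · subst hj
      ring
    · ring
  simp_rw [h]
  rw [Finset.sum_sub_distrib, Finset.sum_ite_eq' Finset.univ i]
  simp

theorem rf_tB {n m : ℕ} (A : Matrix (Fin n) (Fin n) ℤ) (b : Fin n → Fin m → ℚ) (i k : Fin n) :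
    rf A b i (tB b k) = tB b k := by
  rw [tB, map_sum]
  refine Finset.sum_congr rfl fun s _ => ?_
  have hC : rf A b i (C (b k s)) = C (b k s) := AlgHom.commutes _ _
  rw [map_mul, rf_inr, hC]

theorem pderiv_qf {n m : ℕ} (A : Matrix (Fin n) (Fin n) ℤ) (b : Fin n → Fin m → ℚ)
    (c : Fin n → ℚ) (hc : ∀ i j, c i * ((A j i : ℤ) : ℚ) = c j * ((A i j : ℤ) : ℚ)) (i : Fin n) :
    pderiv (Sum.inl i) (qf A b c) = C (c i) * al A b i := by
  classical
  have h : ∀ k, pderiv (Sum.inl i) (C (c k / 2) * (X (Sum.inl k) * (tA A k + 2 * tB b k)) : Pl n m)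
      = (if k = i then C (c i / 2) * (tA A i + 2 * tB b i) else 0) +
        C (1 / 2) * (C (c i) * (C ((A k i : ℤ) : ℚ) * X (Sum.inl k))) := by
    intro k
    have h2 : pderiv (Sum.inl i) (2 * tB b k : Pl n m) = 0 := by
      rw [pderiv_mul, pderiv_tB]
      have : pderiv (Sum.inl i) (2 : Pl n m) = 0 := by
        have := pderiv_C (σ := Fin n ⊕ Fin m) (R := ℚ) (a := (2 : ℚ)) (i := Sum.inl i)
        rwa [c2] at this
      rw [this]
      simp
    rw [pderiv_C_mul, pderiv_mul, map_add, h2, add_zero, pderiv_tA, pderiv_X]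
    have e1 : C (1 / 2) * (C (c i) * (C ((A k i : ℤ) : ℚ) * X (Sum.inl k))) =
        (C (c k / 2) * (X (Sum.inl k) * C ((A i k : ℤ) : ℚ)) : Pl n m) := by
      have e2 : (C (1 / 2) * (C (c i) * C ((A k i : ℤ) : ℚ)) : Pl n m) =
          C (c k / 2) * C ((A i k : ℤ) : ℚ) := by
        rw [← C_mul, ← C_mul, ← C_mul, hc i k]
        congr 1
        ring
      calc (C (1 / 2) * (C (c i) * (C ((A k i : ℤ) : ℚ) * X (Sum.inl k))) : Pl n m)
          = (C (1 / 2) * (C (c i) * C ((A k i : ℤ) : ℚ))) * X (Sum.inl k) := by ring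
        _ = _ := by rw [e2]; ring
    rw [e1]
    by_cases hk : k = i
    · subst hk
      simp only [Pi.single_eq_same, if_true]
      ring
    · have hk' : (Sum.inl k : Fin n ⊕ Fin m) ≠ Sum.inl i := fun h => hk (Sum.inl.inj h)
      rw [if_neg hk, Pi.single_eq_of_ne hk']
      ring
  rw [qf, map_sum]
  simp_rw [h]
  rw [Finset.sum_add_distrib, Finset.sum_ite_eq' Finset.univ i, if_pos (Finset.mem_univ i),
    ← Finset.mul_sum, ← Finset.mul_sum]
  change _ + C (1 / 2) * (C (c i) * tA A i) = _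
  rw [al_eq]
  have e3 : (C (c i / 2) : Pl n m) = C (1 / 2) * C (c i) := by
    rw [← C_mul]
    congr 1
    ring
  have e4 : (C (1 / 2) * 2 : Pl n m) = 1 := by
    rw [← c2, ← C_mul]
    norm_num
  rw [e3]
  linear_combination (C (c i) * tA A i + C (c i) * tB b i) * e4

theorem rf_qf {n m : ℕ} (A : Matrix (Fin n) (Fin n) ℤ) (b : Fin n → Fin m → ℚ)
    (c : Fin n → ℚ) (hc : ∀ i j, c i * ((A j i : ℤ) : ℚ) = c j * ((A i j : ℤ) : ℚ)) (i : Fin n)
    (hi : A i i = 2) : rf A b i (qf A b c) = qf A b c := by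
  classical
  have h : ∀ k, rf A b i (C (c k / 2) * (X (Sum.inl k) * (tA A k + 2 * tB b k)))
      = C (c k / 2) * (X (Sum.inl k) * (tA A k + 2 * tB b k)) -
        (if k = i then C (c i / 2) * al A b i * (tA A i - 2 * al A b i + 2 * tB b i) else 0) -
        C (1 / 2) * (C (c i) * al A b i * (C ((A k i : ℤ) : ℚ) * X (Sum.inl k))) := by
    intro k
    have hC : ∀ a : ℚ, rf A b i (C a) = C a := fun a => AlgHom.commutes _ _
    have h2 : rf A b i (2 : Pl n m) = 2 := map_ofNat _ 2
    rw [map_mul, map_mul, map_add, map_mul, rf_tA, rf_tB, rf_inl, hC, h2]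
    have e1 : C (1 / 2) * (C (c i) * al A b i * (C ((A k i : ℤ) : ℚ) * X (Sum.inl k))) =
        (C (c k / 2) * (X (Sum.inl k) * (C ((A i k : ℤ) : ℚ) * al A b i)) : Pl n m) := by
      have e2 : (C (1 / 2) * (C (c i) * C ((A k i : ℤ) : ℚ)) : Pl n m) =
          C (c k / 2) * C ((A i k : ℤ) : ℚ) := by
        rw [← C_mul, ← C_mul, ← C_mul, hc i k]
        congr 1
        ring
      calc (C (1 / 2) * (C (c i) * al A b i * (C ((A k i : ℤ) : ℚ) * X (Sum.inl k))) : Pl n m)
          = (C (1 / 2) * (C (c i) * C ((A k i : ℤ) : ℚ))) * (X (Sum.inl k) * al A b i) := by ring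
        _ = _ := by rw [e2]; ring
    rw [e1]
    by_cases hk : k = i
    · subst hk
      rw [if_pos rfl, if_pos rfl, hi]
      have : (C (((2 : ℤ) : ℚ)) : Pl n m) = 2 := by
        rw [← c2]
        norm_num
      rw [this]
      ring
    · rw [if_neg hk, if_neg hk]
      ring
  rw [qf, map_sum]
  simp_rw [h]
  rw [Finset.sum_sub_distrib, Finset.sum_sub_distrib, Finset.sum_ite_eq' Finset.univ i,
    if_pos (Finset.mem_univ i), ← Finset.mul_sum, ← Finset.mul_sum]
  change _ - _ - C (1 / 2) * (C (c i) * al A b i * tA A i) = _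
  have e3 : (C (c i / 2) : Pl n m) = C (1 / 2) * C (c i) := by
    rw [← C_mul]
    congr 1
    ring
  rw [e3, al_eq]
  ring

/-- uniqueness of the symmetrizer -/
theorem symm_unique {n : ℕ} (A : Matrix (Fin n) (Fin n) ℤ) (hI : Indec A) (c c' : Fin n → ℚ)
    (hc0 : ∀ i, c i ≠ 0) (hc : ∀ i j, c i * ((A j i : ℤ) : ℚ) = c j * ((A i j : ℤ) : ℚ))
    (hc' : ∀ i j, c' i * ((A j i : ℤ) : ℚ) = c' j * ((A i j : ℤ) : ℚ)) :
    ∃ a : ℚ, ∀ i, c' i = a * c i := by
  classical
  rcases isEmpty_or_nonempty (Fin n) with h | ⟨⟨i0⟩⟩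
  · exact ⟨0, fun i => h.elim i⟩
  refine ⟨c' i0 / c i0, ?_⟩
  by_contra hne
  push Not at hne
  obtain ⟨i1, hi1⟩ := hne
  set S : Finset (Fin n) := Finset.univ.filter (fun i => c' i = c' i0 / c i0 * c i) with hS
  obtain ⟨i, hi, j, hj, hij⟩ := hI S ⟨i0, by simp [hS, div_mul_cancel₀ _ (hc0 i0)]⟩ (by
    intro h
    have : i1 ∈ S := by rw [h]; exact Finset.mem_univ _
    rw [hS, Finset.mem_filter] at this
    exact hi1 this.2)
  rw [hS, Finset.mem_filter] at hi
  apply hj
  rw [hS, Finset.mem_filter]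
  refine ⟨Finset.mem_univ _, ?_⟩
  have hA : ((A i j : ℤ) : ℚ) ≠ 0 := by exact_mod_cast hij
  have h1 := hc i j
  have h2 := hc' i j
  rw [hi.2] at h2
  apply mul_right_cancel₀ hA
  rw [← h2]
  linear_combination (c' i0 / c i0) * h1

/-- primitives -/
theorem prim {n m : ℕ} (q : Pl n m) (G : Pl n m)
    (hG : G ∈ Algebra.adjoin ℚ (Set.range (Fin.cons q (fun s : Fin m => (X (Sum.inr s) : Pl n m)) :
          Fin (m + 1) → Pl n m))) :
    ∃ F ∈ Algebra.adjoin ℚ (Set.range (Fin.cons q (fun s : Fin m => (X (Sum.inr s) : Pl n m)) :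
          Fin (m + 1) → Pl n m)), ∀ i, pderiv (Sum.inl i) F = G * pderiv (Sum.inl i) q := by
  classical
  set T := Algebra.adjoin ℚ (Set.range (Fin.cons q (fun s : Fin m => (X (Sum.inr s) : Pl n m)) :
          Fin (m + 1) → Pl n m)) with hT
  set R := supported ℚ (Set.range (Sum.inr : Fin m → Fin n ⊕ Fin m)) with hR
  have hqT : q ∈ T := Algebra.subset_adjoin ⟨0, rfl⟩
  have hRT : R ≤ T := by
    rw [hR, supported_eq_adjoin_X]
    apply Algebra.adjoin_le
    rintro _ ⟨_, ⟨s, rfl⟩, rfl⟩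
    exact Algebra.subset_adjoin ⟨s.succ, by simp⟩
  have hGr : G ∈ ((Polynomial.aeval (R := R) q).range.restrictScalars ℚ) := by
    have h1 : T ≤ (Polynomial.aeval (R := R) q).range.restrictScalars ℚ := by
      rw [hT]
      apply Algebra.adjoin_le
      rintro _ ⟨x, rfl⟩
      refine Fin.cases ?_ (fun s => ?_) x
      · exact ⟨Polynomial.X, by simp⟩
      · have hs : (X (Sum.inr s) : Pl n m) ∈ R := Algebra.subset_adjoin ⟨_, ⟨s, rfl⟩, rfl⟩
        refine ⟨Polynomial.C ⟨_, hs⟩, ?_⟩
        simp only [Fin.cons_succ]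
        erw [Polynomial.aeval_C]
        rfl
    exact h1 hG
  obtain ⟨P, hP⟩ := hGr
  change Polynomial.aeval q P = G at hP
  rw [← hP]
  clear hP hG
  induction P using Polynomial.induction_on' with
  | add P Q hP hQ =>
    obtain ⟨F, hF, h1⟩ := hP
    obtain ⟨F', hF', h2⟩ := hQ
    exact ⟨F + F', T.add_mem hF hF', fun i => by rw [map_add, map_add, h1, h2]; ring⟩
  | monomial l p =>
    refine ⟨C ((1 : ℚ) / (l + 1)) * ((p : Pl n m) * q ^ (l + 1)), ?_, ?_⟩
    · exact T.mul_mem (T.algebraMap_mem _) (T.mul_mem (hRT p.2) (T.pow_mem hqT _))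
    · intro i
      have h1 : pderiv (Sum.inl i) (p : Pl n m) = 0 := pderiv_supp _ p.2 i
      rw [pderiv_C_mul, pderiv_mul, h1, zero_mul, zero_add, pderiv_pow, Polynomial.aeval_monomial]
      have h2 : (algebraMap R (Pl n m)) p = (p : Pl n m) := rfl
      have h3 : (C ((1 : ℚ) / (l + 1)) * ((l + 1 : ℕ) : Pl n m)) = 1 := by
        have : ((l + 1 : ℕ) : Pl n m) = C ((l + 1 : ℕ) : ℚ) := by simp
        rw [this, ← C_mul]
        have h0 : ((l : ℚ) + 1) ≠ 0 := by positivity
        push_cast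
        rw [one_div, inv_mul_cancel₀ h0, C_1]
      rw [h2, add_tsub_cancel_right]
      linear_combination ((p : Pl n m) * q ^ l * pderiv (Sum.inl i) q) * h3

theorem pw (hsym : S_SYM) : S_PW := by
  classical
  intro n m A b hG hI hD
  by_cases hall : ∀ f ∈ Inv A b Finset.univ, ∀ i, pderiv (Sum.inl i) f = 0
  · refine ⟨0, isHomogeneous_zero _ _ _, le_antisymm ?_ ?_⟩
    · intro f hf
      have h1 := mem_supp f (hall f hf)
      rw [supported_eq_adjoin_X] at h1
      refine Algebra.adjoin_mono ?_ h1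
      rintro _ ⟨_, ⟨s, rfl⟩, rfl⟩
      exact ⟨s.succ, by simp⟩
    · apply Algebra.adjoin_le
      rintro _ ⟨x, rfl⟩
      refine Fin.cases ?_ (fun s => ?_) x
      · exact (Inv A b Finset.univ).zero_mem
      · intro i _
        simp only [Fin.cons_succ]
        exact rf_inr A b i s
  · push Not at hall
    obtain ⟨f0, hf0, i0, hi0⟩ := hall
    obtain ⟨c, hc0, hc, -⟩ := (hsym n m A b hG hI hD f0 hf0).resolve_left (fun h => hi0 (h i0))
    refine ⟨qf A b c, qf_hom A b c, le_antisymm ?_ ?_⟩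
    · have hRT : supported ℚ (Set.range (Sum.inr : Fin m → Fin n ⊕ Fin m)) ≤
          Algebra.adjoin ℚ (Set.range (Fin.cons (qf A b c)
            (fun s : Fin m => (X (Sum.inr s) : Pl n m)) : Fin (m + 1) → Pl n m)) := by
        rw [supported_eq_adjoin_X]
        apply Algebra.adjoin_le
        rintro _ ⟨_, ⟨s, rfl⟩, rfl⟩
        exact Algebra.subset_adjoin ⟨s.succ, by simp⟩
      have key : ∀ N : ℕ, ∀ f ∈ Inv A b Finset.univ, f.totalDegree ≤ N →
          f ∈ Algebra.adjoin ℚ (Set.range (Fin.cons (qf A b c)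
            (fun s : Fin m => (X (Sum.inr s) : Pl n m)) : Fin (m + 1) → Pl n m)) := by
        intro N
        induction N using Nat.strong_induction_on with
        | _ N ih =>
        intro f hf hdeg
        rcases hsym n m A b hG hI hD f hf with h0 | ⟨c', hc0', hc', G, hGi, hder⟩
        · exact hRT (mem_supp f h0)
        · obtain ⟨a, ha⟩ := symm_unique A hI c c' hc0 hc hc'
          have hG'i : C a * G ∈ Inv A b Finset.univ :=
            (Inv A b Finset.univ).mul_mem ((Inv A b Finset.univ).algebraMap_mem a) hGi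
          have hder' : ∀ i, pderiv (Sum.inl i) f = (C a * G) * pderiv (Sum.inl i) (qf A b c) := by
            intro i
            rw [hder i, pderiv_qf A b c hc i, ha i, C_mul]
            ring
          have hG'm : C a * G ∈ Algebra.adjoin ℚ (Set.range (Fin.cons (qf A b c)
            (fun s : Fin m => (X (Sum.inr s) : Pl n m)) : Fin (m + 1) → Pl n m)) := by
            by_cases hz : C a * G = 0
            · rw [hz]
              exact Subalgebra.zero_mem _
            · have h1 : (pderiv (Sum.inl i0) f).totalDegree = (C a * G).totalDegree + 1 := by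
                rw [hder' i0, pderiv_qf A b c hc i0]
                have hne : C (c i0) * al A b i0 ≠ 0 :=
                  mul_ne_zero (by simpa using hc0 i0) (al_ne_zero A b i0 (hG.1 i0))
                rw [totalDegree_mul_of_isDomain hz hne]
                congr 1
                have hh : (C (c i0) * al A b i0 : Pl n m).IsHomogeneous 1 := by
                  simpa using (isHomogeneous_C (Fin n ⊕ Fin m) (c i0)).mul (al_hom A b i0)
                exact hh.totalDegree hne
              have h2 := degree_pderiv (Sum.inl i0) f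
              exact ih (C a * G).totalDegree (by omega) _ hG'i le_rfl
          obtain ⟨F, hF, hFd⟩ := prim (qf A b c) (C a * G) hG'm
          have h3 : f - F ∈ supported ℚ (Set.range (Sum.inr : Fin m → Fin n ⊕ Fin m)) := by
            apply mem_supp
            intro i
            rw [map_sub, hder' i, hFd i, sub_self]
          have h4 := Subalgebra.add_mem _ (hRT h3) hF
          simpa using h4
      intro f hf
      exact key _ f hf le_rfl
    · apply Algebra.adjoin_le
      rintro _ ⟨x, rfl⟩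
      refine Fin.cases ?_ (fun s => ?_) x
      · intro i _
        simp only [Fin.cons_zero]
        exact rf_qf A b c hc i (hG.1 i)
      · intro i _
        simp only [Fin.cons_succ]
        exact rf_inr A b i s

end Pool.Agent.Y455.KM
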